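import Pool.Agent.P.MP_439f1f_co.Dy3

/-!
The girth of the skeleton with the factor two of the ends; the chain of existence theorems with
the girth `k`, the length `r0 + 1` of the moats and the depth `e` of privacy decoupled.
-/

set_option autoImplicit false

namespace Pool.Agent.P.MP_439f1f_co

open SimpleGraph Sum Function

/-- Girth of a skeleton: a step between two hubs has two edges. -/
theorem gg_skel2 {S Λ : Type*} {m k k0 : ℕ} {hang : Λ → ℕ → S → Prop} (hk : k ≤ m)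
    (hk0 : k ≤ 2 * k0 + 2)
    (hend : ∀ L i s, hang L i s → i = 0 ∨ i = m)
    (two : ∀ L i a b c, hang L i a → hang L i b → hang L i c → a = b ∨ a = c ∨ b = c)
    (ρ : S → ℕ) (sp : Λ → ℕ → Prop)
    (up : ∀ s L i t L' i' t', hang L i s → hang L i t → t ≠ s → ρ s ≤ ρ t → ¬sp L i →
      hang L' i' s → hang L' i' t' → t' ≠ s → ρ s ≤ ρ t' → ¬sp L' i' → L = L' ∧ i = i')
    (hsp : ∀ L i a b, sp L i → hang L i a → hang L i b → a ≠ b → ∃ ψ : S → ℕ,
      (∀ L' i' s t, ¬(L' = L ∧ i' = i) → hang L' i' s → hang L' i' t → ψ s ≤ ψ t + 1) ∧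
      (ψ a + k0 ≤ ψ b ∨ ψ b + k0 ≤ ψ a)) : GG k (HL m hang) := by
  classical
  intro x w hw
  by_cases hl : ∃ p q, s(inr p, inr q) ∈ w.edges
  · -- a cycle with an edge of a line contains the line
    obtain ⟨L, i, j, hij, he⟩ : ∃ (L : Λ) (i j : Fin (m + 1)), (i : ℕ) + 1 = j ∧
        s(inr (L, i), inr (L, j)) ∈ w.edges := by
      obtain ⟨⟨L, i⟩, ⟨L', j⟩, he⟩ := hl
      obtain ⟨e, h⟩ := (HL_rr _ _).1 (w.adj_of_mem_edges he)
      simp only at e h
      subst e
      rcases h with h | h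
      exacts [⟨L, i, j, h, he⟩, ⟨L, j, i, h, Sym2.eq_swap ▸ he⟩]
    obtain ⟨p, e1, e2, -⟩ := cycle_split hw he
    have := walk_pot (Sum.elim (fun _ => 0) fun q : Λ × Fin (m + 1) =>
      if q.1 = L then (if (q.2 : ℕ) ≤ i then -(q.2 : ℕ) else (m : ℤ) - (q.2 : ℕ)) else 0) p (by
      rintro (s | ⟨A, a⟩) (t | ⟨B, b⟩) h hm
      · exact h.elim
      · have := hend _ _ _ h
        have := j.isLt
        simp only [elim_inl, elim_inr] at *
        split_ifs <;> omega
      · have := hend _ _ _ h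
        have := j.isLt
        simp only [elim_inl, elim_inr] at *
        split_ifs <;> omega
      · obtain ⟨e, h⟩ := (HL_rr _ _).1 h
        simp only at e h
        subst e
        simp only [elim_inr]
        by_cases hA : A = L
        · subst hA
          have n1 : ¬((a : ℕ) = i ∧ (b : ℕ) = j) := fun ⟨h1, h2⟩ =>
            e2 (by rwa [Fin.ext h1, Fin.ext h2] at hm)
          have n2 : ¬((b : ℕ) = i ∧ (a : ℕ) = j) := fun ⟨h1, h2⟩ =>
            e2 (by rwa [Fin.ext h1, Fin.ext h2, Sym2.eq_swap] at hm)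
          simp only [if_true]
          split_ifs <;> omega
        · simp [hA])
    simp only [elim_inr, if_true, le_refl] at this
    rw [if_neg (by omega)] at this
    omega
  have hub : ∀ p z, s(inr p, z) ∈ w.edges → ∃ t, z = inl t ∧ hang p.1 p.2 t := by
    rintro p (t | q) h
    · exact ⟨t, rfl, w.adj_of_mem_edges h⟩
    · exact absurd ⟨p, q, h⟩ hl
  by_cases hs : ∃ p : Λ × Fin (m + 1), inr p ∈ w.support ∧ sp p.1 p.2
  · obtain ⟨p, hp, hsp'⟩ := hs
    obtain ⟨a, b, hab, ea, eb⟩ := cyc_two hw hp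
    obtain ⟨a, rfl, ha⟩ := hub p a ea
    obtain ⟨b, rfl, hb⟩ := hub p b eb
    have hab' : a ≠ b := fun e => hab (by rw [e])
    obtain ⟨ψ, h1, h2⟩ := hsp _ _ a b hsp' ha hb hab'
    have fin : ∀ a b, s(inr p, inl a) ∈ w.edges → hang p.1 p.2 a → hang p.1 p.2 b → a ≠ b →
        ψ a + k0 ≤ ψ b → k ≤ w.length := by
      intro a b ea ha hb hab h2
      obtain ⟨q, e1, e2, e3⟩ := cycle_split hw (Sym2.eq_swap ▸ ea : s(inl a, inr p) ∈ w.edges)
      have lip : ∀ s (r : Λ × Fin (m + 1)), hang r.1 r.2 s → s(inl s, inr r) ∈ q.edges →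
          (if r = p then ψ b else sInf (ψ '' {s | hang r.1 r.2 s})) ≤ ψ s ∧
          ψ s ≤ (if r = p then ψ b else sInf (ψ '' {s | hang r.1 r.2 s})) + 1 := by
        intro s r h hm
        split_ifs with hr
        · subst hr
          rcases two _ _ s a b h ha hb with rfl | rfl | e
          · exact absurd hm e2
          · omega
          · exact absurd e hab
        · have c1 : sInf (ψ '' {s | hang r.1 r.2 s}) ≤ ψ s := Nat.sInf_le ⟨s, h, rfl⟩
          obtain ⟨t, c2, c3⟩ := Nat.sInf_mem (s := ψ '' {s | hang r.1 r.2 s}) ⟨_, s, h, rfl⟩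
          have := h1 _ _ s t (fun e => hr (Prod.ext e.1 (Fin.ext e.2))) h c2
          omega
      have := walk_pot (Sum.elim (fun s => 2 * (ψ s : ℤ)) fun r : Λ × Fin (m + 1) =>
        2 * ((if r = p then ψ b else sInf (ψ '' {s | hang r.1 r.2 s}) : ℕ) : ℤ) + 1) q (by
        rintro (s | r) (t | r') h hm
        · exact h.elim
        · have := (lip s r' h hm).1
          simp only [elim_inl, elim_inr]
          omega
        · have := (lip t r h (Sym2.eq_swap ▸ hm)).2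
          simp only [elim_inl, elim_inr]
          omega
        · exact absurd ⟨r, r', e3 _ hm⟩ hl)
      simp only [elim_inl, elim_inr, if_true] at this
      omega
    rcases h2 with h2 | h2
    exacts [fin a b ea ha hb hab' h2, fin b a eb hb ha hab'.symm h2]
  · exfalso
    have ne : ∃ s, inl s ∈ w.support := by
      rcases x with s | p
      · exact ⟨s, w.start_mem_support⟩
      · obtain ⟨a, -, -, ea, -⟩ := cyc_two hw w.start_mem_support
        obtain ⟨t, rfl, -⟩ := hub p a ea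
        exact ⟨t, w.snd_mem_support_of_mem_edges ea⟩
    obtain ⟨_, ⟨s, hs1, rfl⟩, hmin⟩ := wellFounded_lt.has_min (ρ '' {s | inl s ∈ w.support})
      (Set.Nonempty.image ρ ne)
    have step : ∀ z, s(inl s, z) ∈ w.edges → ∃ p t, z = inr p ∧ hang p.1 p.2 s ∧ hang p.1 p.2 t ∧
        t ≠ s ∧ ρ s ≤ ρ t ∧ ¬sp p.1 p.2 := by
      rintro (t | p) h
      · exact (w.adj_of_mem_edges h).elim
      · have hp := w.snd_mem_support_of_mem_edges h
        obtain ⟨a, b, hab, ea, eb⟩ := cyc_two hw hp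
        obtain ⟨a, rfl, ha⟩ := hub p a ea
        obtain ⟨b, rfl, hb⟩ := hub p b eb
        have c : ∀ t, s(inr p, inl t) ∈ w.edges → ρ s ≤ ρ t := fun t e =>
          not_lt.1 (hmin _ ⟨t, w.snd_mem_support_of_mem_edges e, rfl⟩)
        by_cases e : a = s
        · exact ⟨p, b, rfl, w.adj_of_mem_edges h, hb, fun e' => hab (by rw [e, e']), c b eb,
            fun h' => hs ⟨p, hp, h'⟩⟩
        · exact ⟨p, a, rfl, w.adj_of_mem_edges h, ha, e, c a ea, fun h' => hs ⟨p, hp, h'⟩⟩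
    obtain ⟨a, b, hab, ea, eb⟩ := cyc_two hw hs1
    obtain ⟨p, t, rfl, a1, a2, a3, a4, a5⟩ := step a ea
    obtain ⟨q, t', rfl, b1, b2, b3, b4, b5⟩ := step b eb
    obtain ⟨e1, e2⟩ := up s _ _ t _ _ t' a1 a2 a3 a4 a5 b1 b2 b3 b4 b5
    exact hab (by rw [Prod.ext e1 (Fin.ext e2)])

namespace Forest

variable {X C T N Z : Type} {cl : X → C} {tr : C → T} {D e b : ℕ}

/-- a forest with a smaller depth of privacy -/
def wk (F : Forest X C T N cl tr D e b) {e' : ℕ} (h : e' ≤ e) : Forest X C T N cl tr D e' b :=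
  ⟨F.anc, F.lev, F.par, F.lev_anc, F.surj, F.par_anc, F.top, F.mid, F.odd,
    fun x y l h1 => F.priv x y l (by omega), F.deg⟩

variable {F : Forest X C T N cl tr D e b} {S Λ : Type} {m k : ℕ} {hang : Λ → ℕ → S → Prop}
  {κ : S → Option (N ⊕ Z)} {gate : N → Z} {σ : Z → Z} {own : Z → Option N}
  {nm : Λ → ℕ → N ⊕ N ⊕ Z} {A : Λ → ℕ → S}

theorem Skel.gg2 (H : F.Skel m k hang κ gate σ own nm A) {k' : ℕ} (hk : k' ≤ m)
    (hk0 : k' ≤ 2 * k + 2) : GG k' (HL m hang) := by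
  classical
  let ρ : Option (N ⊕ Z) → ℕ := fun v => v.elim (D + 1) (Sum.elim (fun n => D + 1 - F.lev n) 0)
  refine gg_skel2 hk hk0 H.ends H.two (fun s => ρ (κ s)) (fun L i => ∃ z, nm L i = inr (inr z)) ?_ ?_
  · have key : ∀ s L i t, hang L i s → hang L i t → t ≠ s → ρ (κ s) ≤ ρ (κ t) →
        (¬∃ z, nm L i = inr (inr z)) → ∃ n, (nm L i = inl n ∧ κ s = some (inl n)) ∨
          (nm L i = inr (inl n) ∧ κ s = some (inr (gate n))) := by
      intro s L i t hs ht hne hρ hsp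
      have := H.name L i s t hs ht hne.symm
      rcases hn : nm L i with n | n | z <;> rw [hn] at this
      · refine ⟨n, Or.inl ⟨rfl, ?_⟩⟩
        rcases this with p | p
        · exact p.1
        · exfalso
          obtain ⟨l1, l2, -⟩ := F.surj n
          rw [p.1, p.2] at hρ
          simp only [ea, eb, ρ] at hρ
          split_ifs at hρ with h
          · simp at hρ; omega
          · have := F.lev_par (n := n) (by omega)
            simp at hρ; omega
      · refine ⟨n, Or.inr ⟨rfl, ?_⟩⟩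
        rcases this with p | p
        · exfalso
          obtain ⟨l1, l2, -⟩ := F.surj n
          rw [p.1, p.2] at hρ
          simp [ea, eb, ρ] at hρ
          omega
        · exact p.2
      · exact absurd ⟨z, hn⟩ hsp
    intro s L i t L' i' t' a1 a2 a3 a4 a5 b1 b2 b3 b4 b5
    obtain ⟨n, hn⟩ := key s L i t a1 a2 a3 a4 a5
    obtain ⟨n', hn'⟩ := key s L' i' t' b1 b2 b3 b4 b5
    refine H.ninj L i t s L' i' t' s a2 a1 a3 b2 b1 b3 ?_
    rcases hn with p | p <;> rcases hn' with q | q <;> have r := p.2.symm.trans q.2 <;>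
      simp only [Option.some.injEq, inl.injEq, inr.injEq, reduceCtorEq] at r
    · rw [p.1, q.1, r]
    · have := H.own_g n
      rw [r, H.own_g] at this
      rw [p.1, q.1, Option.some.inj this]
  · rintro L i a c ⟨z, hz⟩ ha hc hac
    let ψ0 : ℕ := (own z).elim 0 fun n => cd σ k (σ z) (gate n)
    let ψ : Option (N ⊕ Z) → ℕ := fun v => v.elim ψ0
      (Sum.elim (fun _ => ψ0) fun w => if own w = own z then cd σ k (σ z) w else ψ0)
    refine ⟨fun s => ψ (κ s), fun L' i' s t hne => H.lip ψ ?_ s t, ?_⟩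
    · rintro ⟨s', t', h1, h2, h3⟩
      rcases hn : nm L' i' with n | n | w
      · simp only [ea, eb, ψ]
        split_ifs <;> simp
      · simp only [ea, eb, ψ, Option.elim, elim_inl, elim_inr, H.own_g]
        split_ifs with h
        · simp only [ψ0, ← h, Option.elim]; omega
        · omega
      · have hw : w ≠ z := fun e => hne (H.ninj _ _ _ _ _ _ _ _ h1 h2 h3 ha hc hac (by
          rw [hn, hz, e]))
        simp only [ea, eb, ψ, Option.elim, elim_inr, H.own_s]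
        split_ifs
        · exact (cd_step H.sinj k hw).symm
        · omega
    · have e0 : ψ (some (inr (σ z))) = 0 := by
        simp only [ψ, Option.elim, elim_inr, H.own_s, if_true]
        exact Nat.le_zero.1 ((cd_spec σ k _ _).2.2 0 rfl)
      have e1 : k ≤ ψ (some (inr z)) := by
        simp only [ψ, Option.elim, elim_inr, if_true]
        obtain ⟨a1, a2 | a2, -⟩ := cd_spec σ k (σ z) z
        · omega
        · by_contra hlt
          exact H.long z (cd σ k (σ z) z + 1) (by omega) (by omega) a2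
      have := H.name L i a c ha hc hac
      rw [hz] at this
      rcases this with p | p <;> simp only [p.1, p.2, ea, eb, e0]
      exacts [Or.inr (by omega), Or.inl (by omega)]

end Forest

theorem Forest.Skel.greedy2 {X C T N Z S Λ J Ty Sl Var C' Q : Type} {cl : X → C} {tr : C → T}
    {D e b m k k0 a : ℕ} {F : Forest X C T N cl tr D e b} {hang : Λ → ℕ → S → Prop}
    {κ : S → Option (N ⊕ Z)} {gate : N → Z} {σ : Z → Z} {own : Z → Option N}
    {nm : Λ → ℕ → N ⊕ N ⊕ Z} {A : Λ → ℕ → S} [Finite N] [Finite Z] [Finite T] [Finite Λ]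
    [Fintype J] [Finite Ty] [Fintype Sl] [Fintype Var] [Fintype Q]
    (H : F.Skel m k0 hang κ gate σ own nm A) (hk0 : k ≤ 2 * k0 + 2) (hm : k + 1 ≤ m) (he : k ≤ e) (hD : k + 2 ≤ D)
    (xl : C' → Q → Q → X)
    (hx : ∀ c a b c' a' b', xl c a b = xl c' a' b' → c = c' ∧ a = a' ∧ b = b')
    (lab : C' → Q → Q → S) (hl : ∀ c a b, κ (lab c a b) = some (inl (F.anc (xl c a b) D)))
    (line : J → Λ) (typ : J → Ty) (act : Ty → Sl → Prop) (ps : J → Sl → ℕ)
    (hps : ∀ j σ, ps j σ ≤ m)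
    (hpos : ∀ j σ j' σ', line j = line j' → ps j σ = ps j' σ' → j = j')
    (cls : Ty → Sl → C') (u v : Ty → Sl → Var) (huv : ∀ T σ, act T σ → u T σ ≠ v T σ)
    (hd : ∀ T σ σ', act T σ → act T σ' → σ ≠ σ' →
      (u T σ ≠ u T σ' ∧ u T σ ≠ v T σ') ∨ (v T σ ≠ u T σ' ∧ v T σ ≠ v T σ'))
    (hQ : (Fintype.card Q).Prime) (hV : Fintype.card Var ≤ Fintype.card Q) (des : Ty → Prop)
    (hdes : ∀ T σ T' σ', des T → des T' → act T σ → act T' σ' → cls T σ = cls T' σ' →
      T = T' ∧ σ = σ')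
    (many : ∀ T, des T → 2 * (Fintype.card Q * Fintype.card Q) ≤ {j | typ j = T}.ncard)
    (hJ : Fintype.card J ≤ a * (Fintype.card Q * Fintype.card Q))
    (hq : 4 * Fintype.card Sl ^ 2 * (Nat.card T + b + 6 + Fintype.card Sl +
      (2 * Fintype.card Sl ^ 2 * a + 1) + 1) ^ k < Fintype.card Q) :
    ∃ x : J → Var → Q,
      GG k (HL m fun L i s => hang L i s ∨ ∃ j σ, line j = L ∧ act (typ j) σ ∧ ps j σ = i ∧
        lab (cls (typ j) σ) (x j (u (typ j) σ)) (x j (v (typ j) σ)) = s) ∧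
      ∀ T σ, des T → act T σ → ∀ a b, ∃ j, typ j = T ∧ x j (u T σ) = a ∧ x j (v T σ) = b := by
  have : Finite S := Finite.of_injective κ H.kinj
  obtain ⟨lat, hlat⟩ := exists_lat hQ hV
  let ε := Fintype.equivFin Q
  refine greedy_HLJ (H.gg2 (by omega) hk0) H.deg lab (fun c a b c' a' b' h => hx _ _ _ _ _ _ ?_)
    line typ act ps hps hpos cls u v huv hd (fun w s t => ε.symm (lat w (ε s) (ε t)))
    (fun w w' hw z z' h => ?_) des hdes (fun T hT => lt_of_lt_of_le ?_ (many T hT)) hq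
    (by nlinarith [Nat.mul_le_mul_left (2 * Fintype.card Sl ^ 2) hJ]) (by omega)
  · by_contra hne
    exact H.far hm he hD (hl c' a' b') (Or.inl ⟨_, hne, hl c a b⟩) h
  · simp only [Prod.mk.injEq, EmbeddingLike.apply_eq_iff_eq] at h
    have := hlat w w' hw (a₁ := (ε z.1, ε z.2)) (a₂ := (ε z'.1, ε z'.2)) (Prod.ext h.1 h.2)
    simp only [Prod.mk.injEq, EmbeddingLike.apply_eq_iff_eq] at this
    exact Prod.ext this.1 this.2
  · generalize (Nat.card _ + b + 6 + Fintype.card Sl + _ + 1) ^ k = B at hq ⊢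
    have h1 : Fintype.card Sl * B ≤ 4 * Fintype.card Sl ^ 2 * B :=
      Nat.mul_le_mul_right _ (by nlinarith)
    have h2 := Nat.le_mul_self (Fintype.card Q)
    omega

theorem Forest.Skel.halves2 {X C T N Z S Λ Ty C' Q : Type} {cl : X → C} {tr : C → T}
    {D e b m k k0 a r h : ℕ} {F : Forest X C T N cl tr D e b} {hang : Λ → ℕ → S → Prop}
    {κ : S → Option (N ⊕ Z)} {gate : N → Z} {σ : Z → Z} {own : Z → Option N}
    {nm : Λ → ℕ → N ⊕ N ⊕ Z} {A : Λ → ℕ → S} [Finite N] [Finite Z] [Finite T] [Finite Λ]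
    [Finite Ty] [Fintype Q]
    (H : F.Skel m k0 hang κ gate σ own nm A) (hk0 : k ≤ 2 * k0 + 2) (hm : k + 1 ≤ m) (he : k ≤ e) (hD : k + 2 ≤ D)
    (xl : C' → Q → Q → X)
    (hx : ∀ c a b c' a' b', xl c a b = xl c' a' b' → c = c' ∧ a = a' ∧ b = b')
    (lab : C' → Q → Q → S) (hl : ∀ c a b, κ (lab c a b) = some (inl (F.anc (xl c a b) D)))
    (typ : Λ → Bool → Ty) (st : Ty → ℕ) (ρ : Ty → Fin (r + 1))
    (h0 : ∀ L, st (typ L false) + ρ (typ L false) + 3 ≤ h) (h1 : ∀ L, h < st (typ L true))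
    (h2 : ∀ L e, st (typ L e) + ρ (typ L e) + 3 ≤ m) (cls : Ty → Slot r → C')
    (hQ : (Fintype.card Q).Prime) (hV : r + 5 ≤ Fintype.card Q) (des : Ty → Prop)
    (hdes : ∀ T σ T' σ', des T → des T' → Slot.act (ρ T) σ → Slot.act (ρ T') σ' →
      cls T σ = cls T' σ' → T = T' ∧ σ = σ')
    (many : ∀ T, des T →
      2 * (Fintype.card Q * Fintype.card Q) ≤ {j : Λ × Bool | typ j.1 j.2 = T}.ncard)
    (hJ : 2 * Nat.card Λ ≤ a * (Fintype.card Q * Fintype.card Q))
    (hq : 4 * (r + 6) ^ 2 * (Nat.card T + b + 6 + (r + 6) + (2 * (r + 6) ^ 2 * a + 1) + 1) ^ k <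
      Fintype.card Q) :
    ∃ x : Λ → Bool → Vr r → Q,
      GG k (HL m fun L i s => hang L i s ∨ hang2 lab typ st ρ cls x L i s) ∧
      ∀ T σ, des T → Slot.act (ρ T) σ → ∀ a b, ∃ L e, typ L e = T ∧
        x L e (σ.var (ρ T) false) = a ∧ x L e (σ.var (ρ T) true) = b := by
  have := Fintype.ofFinite Λ
  obtain ⟨x, a1, a2⟩ := H.greedy2 (J := Λ × Bool) (a := a) hk0 hm he hD xl hx lab hl Prod.fst
    (fun j => typ j.1 j.2) (fun T => Slot.act (ρ T))
    (fun j σ => st (typ j.1 j.2) + σ.off (ρ (typ j.1 j.2)))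
    (fun j σ => by have := h2 j.1 j.2; have := σ.off_le (ρ := ρ (typ j.1 j.2)); omega)
    (by
      rintro ⟨L, e⟩ σ ⟨L', e'⟩ σ' (rfl : L = L') c
      have := h0 L
      have := h1 L
      have := σ.off_le (ρ := ρ (typ L false))
      have := σ'.off_le (ρ := ρ (typ L false))
      cases e <;> cases e' <;> first | rfl | (exfalso; dsimp only at c; omega))
    cls (fun T σ => σ.var (ρ T) false) (fun T σ => σ.var (ρ T) true) (fun T σ _ => σ.var_ne)
    (fun T σ σ' => Slot.var_hd) hQ (by rwa [Vr.card]) des hdes many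
    (by rwa [Fintype.card_prod, Fintype.card_bool, mul_comm, ← Nat.card_eq_fintype_card])
    (by rwa [Slot.card])
  refine ⟨fun L e => x (L, e), a1.mono ?_, fun T σ c1 c2 a b => ?_⟩
  · rintro (s | ⟨L, i⟩) (t | ⟨L', i'⟩) c
    · exact c
    · exact Or.imp id (fun ⟨e, σ, c⟩ => ⟨(L', e), σ, rfl, c⟩) c
    · exact Or.imp id (fun ⟨e, σ, c⟩ => ⟨(L, e), σ, rfl, c⟩) c
    · exact c
  · obtain ⟨j, c⟩ := a2 T σ c1 c2 a b
    exact ⟨j.1, j.2, c⟩

theorem exists_world2 (C : Type) [Finite C] (k k0 e s r a0 D q0 : ℕ) (he : e ≤ k)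
    (hk0 : k ≤ 2 * k0 + 2)
    (hD : 2 * (s + (2 * k + 4)) + 4 + k ≤ D) :
    ∃ (q b : ℕ) (N : Type) (F : Forest (C × Fin q × Fin q) C C N Prod.fst id D e b), q0 ≤ q ∧
      (∀ x y l, 1 ≤ l → l ≤ 2 * s + 4 → (F.anc x l = F.anc y l ↔ x.1 = y.1)) ∧
      ∀ (Z H Ty : Type) [Finite Z] [Finite H] [Finite Ty] (m h : ℕ) (_ : k + 1 ≤ m)
        (_ : Nat.card H ≤ a0 * (Nat.card N + 1))
        (κ : H → N ⊕ Z) (_ : Function.Injective κ) (nd : N → H) (_ : ∀ n, κ (nd n) = inl n)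
        (gate : N → Z) (σ : Z → Z) (own : Z → Option N) (_ : Function.Injective σ)
        (_ : ∀ z j, 0 < j → j ≤ k0 → σ^[j] z ≠ z) (_ : ∀ z, own (σ z) = own z)
        (_ : ∀ n, own (gate n) = some n) (dA : H → H) (_ : Function.Injective dA)
        (tB hB : H → Option H) (ts : Z → Prop)
        (_ : ∀ L, tB L = some L ∨ (∃ n, κ L = inl n ∧ (tB L).map κ = F.eb gate σ (inl n)) ∨
          ∃ z, ts z ∧ κ L = inr z ∧ (tB L).map κ = some (inr (σ z)))
        (_ : ∀ L, hB L = some L ∨ (∃ n, κ L = inl n ∧ (hB L).map κ = some (inr (gate n))) ∨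
          ∃ z, ¬ts z ∧ κ L = inr z ∧ (hB L).map κ = some (inr (σ z)))
        (typ : H → Bool → Ty) (st : Ty → ℕ) (ρ : Ty → Fin (r + 1))
        (_ : ∀ L, st (typ L false) + ρ (typ L false) + 3 ≤ h) (_ : ∀ L, h < st (typ L true))
        (_ : ∀ L e, st (typ L e) + ρ (typ L e) + 3 ≤ m) (cls : Ty → Slot r → C) (des : Ty → Prop)
        (_ : ∀ T σ T' σ', des T → des T' → Slot.act (ρ T) σ → Slot.act (ρ T') σ' →
          cls T σ = cls T' σ' → T = T' ∧ σ = σ')
        (_ : ∀ T, des T → 2 * (q * q) ≤ {j : H × Bool | typ j.1 j.2 = T}.ncard),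
        ∃ x : H → Bool → Vr r → Fin q,
          GG k (HL m fun L i s => Forest.hang1 dA tB hB m L i s ∨
            hang2 (fun c a b => some (nd (F.anc (c, a, b) D))) typ st ρ cls x L i s) ∧
          ∀ T σ, des T → Slot.act (ρ T) σ → ∀ a b, ∃ L e, typ L e = T ∧
            x L e (σ.var (ρ T) false) = a ∧ x L e (σ.var (ρ T) true) = b := by
  obtain ⟨p, q, h1, h2, h3, h4, h5, h6⟩ :=
    exists_pq k r (Nat.card C) (2 * a0 * (Nat.card C * (D + 1) + 1)) q0
  obtain ⟨N, F, hF⟩ := exists_forest_stem C h2 h5 hD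
  refine ⟨q, _, N, F.wk he, h3, hF, ?_⟩
  intro Z H Ty _ _ _ m h hm hH κ kinj nd hnd gate σ own sinj long own_s own_g dA dinj tB hB ts ht
    hh typ st ρ a0' a1 a2 cls des hdes many
  have := F.finite
  have c := F.card_le
  simp only [Nat.card_prod, Nat.card_eq_fintype_card (α := Fin q), Fintype.card_fin] at c
  refine (F.skel1 (by omega) κ kinj sinj long own_s own_g dinj ts ht hh).halves2
    (a := 2 * a0 * (Nat.card C * (D + 1) + 1)) hk0 hm le_rfl (by omega) (fun c a b => (c, a, b))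
    (fun _ _ _ _ _ _ e => by simpa using e) (fun c a b => some (nd (F.anc (c, a, b) D)))
    (fun c a b => congrArg some (hnd _)) typ st ρ a0' a1 a2 cls (by simpa using h1) (by simpa using h4) des hdes (by simpa using many) ?_
    (by simpa using h6)
  rw [Fintype.card_fin]
  have q1 : 1 ≤ q * q := Nat.mul_pos h1.pos h1.pos
  generalize q * q = Q at c q1 ⊢
  have : Nat.card N + 1 ≤ (Nat.card C * (D + 1) + 1) * Q := by nlinarith
  calc 2 * Nat.card H ≤ 2 * (a0 * ((Nat.card C * (D + 1) + 1) * Q)) :=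
      Nat.mul_le_mul_left _ (hH.trans (Nat.mul_le_mul_left _ this))
    _ = _ := by ring

theorem exists_stat2 (K : Type) [Finite K] [DecidableEq K] (k e r r0 s D a0 q0 : ℕ) (h1 : 12 ≤ e)
    (he : e ≤ k) (h2 : k ≤ 2 * r + 8) (h3 : k ≤ 2 * r0 + 2) (hD : 2 * (s + (2 * k + 4)) + 4 + k ≤ D) :
    ∃ (q b : ℕ) (N : Type) (F : Forest (Kl K r r0 × Fin q × Fin q) (Kl K r r0) (Kl K r r0) N
      Prod.fst id D e b), q0 ≤ q ∧ Finite N ∧
      (∀ x y l, 1 ≤ l → l ≤ 2 * s + 4 → (F.anc x l = F.anc y l ↔ x.1 = y.1)) ∧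
      ∀ (Y β : Type) [Finite Y] [LinearOrder β] (W : Pre K N Y β r r0 q D e b), W.F = F →
        (∀ j u t c, 2 * (q * q) ≤ {y | W.fam j y = u ∧ W.tag j y = t ∧ W.pc j y = c}.ncard) →
        Nat.card Y ≤ a0 * (Nat.card N + 1) → ∃ x, (⟨W, x⟩ : Stat K N Y β r r0 q D e b).Good k := by
  have := Fintype.ofFinite K
  obtain ⟨q, b, N, F, a1, a2, a3⟩ := exists_world2 (Kl K r r0) k r0 e s (r + 1)
    (r0 + 2 + Nat.card K * a0 * 3) D (q0 + r0) he h3 hD
  have := F.finite
  refine ⟨q, b, N, F, by omega, this, a2, ?_⟩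
  rintro Y β _ _ W rfl big hY
  obtain ⟨x, b1, b2⟩ := a3 (N × Fin (r0 + 1) ⊕ K × Y × Fin 3) (Hub K N Y r0) (HT K r0) (2 * r + 9)
    (r + 4) (by omega)
    (by
      simp only [Nat.card_sum, Nat.card_prod, Nat.card_fin]
      nlinarith [Nat.mul_le_mul_left (Nat.card K * 3) hY])
    (Equiv.sumAssoc _ _ _) (Equiv.injective _) (fun n => inl (inl n)) (fun _ => rfl)
    (fun n => inl (n, 0)) (sig (finRotate (r0 + 1)) fun j => bt (W.O.nx j)) sown sig_inj
    (W.long le_rfl fun j u => le_trans (by nlinarith [Nat.le_mul_self q])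
      ((big j u 0 0).trans (Set.ncard_le_ncard fun _ a => a.1))) sown_sig
    (fun _ => rfl) W.O.dA W.O.dA.injective (W.F.tB0 (finRotate (r0 + 1))) W.hB0
    (fun z => z.isLeft)
    (by
      rintro ((n | w) | z)
      · refine Or.inr (Or.inl ⟨n, rfl, ?_⟩)
        simp only [Forest.tB0, Forest.eb]
        split_ifs <;> rfl
      · exact Or.inr (Or.inr ⟨inl w, rfl, rfl, rfl⟩)
      · exact Or.inl rfl)
    (by
      rintro ((n | w) | z)
      exacts [Or.inr (Or.inl ⟨n, rfl, rfl⟩), Or.inl rfl,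
        Or.inr (Or.inr ⟨inr z, by simp, rfl, rfl⟩)])
    W.typ (HT.st r) (HT.len r) (fun L => (W.st_tt L).le) (fun L => by rw [W.st_ht]; omega)
    (fun L u => by
      have := W.st_tt L
      have := W.st_ht L
      have := W.len_ht L
      cases u <;> omega)
    HT.cls (fun _ => True)
    (fun T σ T' σ' _ _ c c' d => by
      rw [HT.cls_eq c, HT.cls_eq c'] at d
      simpa using d)
    fun T _ => W.many h1 (by omega) big T
  refine ⟨x, b1, fun c a a' => ?_⟩
  obtain ⟨L, u, d1, d2, d3⟩ := b2 c.1.1 c.1.2 trivial c.2 a a'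
  refine ⟨L, u, d1, d2, d3, ?_⟩
  simp only [Stat.sl, slab, d1, d2, d3, c.cls]

theorem exists_wd2 (K : Type) [Finite K] [DecidableEq K] [Nonempty K] (k e r r0 s D q0 : ℕ)
    (h1 : 12 ≤ e) (he : e ≤ k) (h2 : k ≤ 2 * r + 8) (h3 : k ≤ 2 * r0 + 2)
    (hD : 2 * (s + (2 * k + 4)) + 4 + k ≤ D) :
    ∃ (q b : ℕ) (N : Type) (_ : Finite N) (F : Fo K N r r0 q D e b), q0 ≤ q ∧
      (∀ x y l, 1 ≤ l → l ≤ 2 * s + 4 → (F.anc x l = F.anc y l ↔ x.1 = y.1)) ∧
      ∀ (β : Type) [LinearOrder β] (A : Dyn K N β r0),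
        ∃ x, (⟨A, F, x⟩ : Wd K N β r r0 q D e b).S.Good k := by
  obtain ⟨q, b, N, F, a1, a2, a3, a4⟩ :=
    exists_stat2 K k e r r0 s D (4 * Nat.card K + 48 * (Nat.card K * Nat.card K) + 4) q0 h1 he h2
      h3 hD
  refine ⟨q, b, N, a2, F, a1, a3, fun β _ A => a4 _ _ (A.pre F) rfl (fun j u t c => ?_) ?_⟩
  · have k : ∀ z l, 1 ≤ l → l ≤ D → (fun n => some (inl (inl n, (A.lay j (inl n)).symm t)))
        (F.anc (⟨(.tE (j, !u) (c - 1) 0, .H), trivial⟩, z) l) ∈
        {y | (A.pre F).fam j y = u ∧ (A.pre F).tag j y = t ∧ (A.pre F).pc j y = c} := by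
      intro z l b1 b2
      refine ⟨?_, Equiv.apply_symm_apply _ _, ?_⟩
      · show decide ((F.tree _).1.1.wor = (j, false)) = u
        rw [F.tree_anc _ b1 b2]
        cases u <;> simp [HT.wor]
      · show (F.tree _).1.1.col + 1 = c
        rw [F.tree_anc _ b1 b2]
        exact sub_add_cancel _ _
    exact F.many (fun n => (some (inl (inl n, (A.lay j (inl n)).symm t)) : Pt K N))
      (fun n n' a => inl.inj (Prod.ext_iff.1 (inl.inj (Option.some.inj a))).1) _
      ⟨(.tE (j, !u) (c - 1) 0, .H), trivial⟩ (l := D) (l' := D - 1) (by omega) (by omega) (by omega)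
      le_rfl (by omega) (by omega)
      fun z => ⟨k z D (by omega) le_rfl, k z (D - 1) (by omega) (by omega)⟩
  · simp only [Finite.card_option, Nat.card_sum, Nat.card_prod, Nat.card_fin,
      Nat.card_eq_fintype_card (α := Bool), Fintype.card_bool]
    nlinarith [Nat.zero_le (Nat.card K * Nat.card N),
      Nat.zero_le (Nat.card K * Nat.card K * Nat.card N)]

theorem exists_sw2 (K : Type) [Finite K] [DecidableEq K] [Nonempty K] (k e r r0 s D q0 : ℕ)
    (h1 : 12 ≤ e) (he : e ≤ k) (h2 : k ≤ 2 * r + 8) (h3 : k ≤ 2 * r0 + 2)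
    (hD : 2 * (s + (2 * k + 4)) + 4 + k ≤ D) :
    ∃ (q b : ℕ) (N : Type) (_ : Finite N) (F : Fo K N r r0 q D e b), q0 ≤ q ∧
      (∀ x y l, 1 ≤ l → l ≤ 2 * s + 4 → (F.anc x l = F.anc y l ↔ x.1 = y.1)) ∧
      ∀ A : Sch K N r r0 q D e b, A.F = F →
        ∃ x, (⟨A, x⟩ : Sw K N r r0 q D e b).W.S.Good k := by
  obtain ⟨q, b, N, a0, F, a1, a2, a3⟩ := exists_wd2 K k e r r0 s D q0 h1 he h2 h3 hD
  refine ⟨q, b, N, a0, F, a1, a2, ?_⟩
  rintro A rfl
  exact a3 Kq A.dyn

theorem exists_fw2 (r r0 : ℕ) (h : 12 ≤ r0) (ev : r0 % 2 = 0) (hr : r0 ≤ r) :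
    ∃ (K N : Type) (_ : Finite K) (_ : DecidableEq K)
    (_ : Nonempty K) (_ : Finite N) (q D b : ℕ) (V : Fw K N r r0 q D r0 b),
    V.W.S.Good (2 * r0 + 2) := by
  classical
  let B := Fin 64 × {π : Par r r0 (2 * (5 * r0 + 40) + 1) // π.Adm}
  have : Nonempty B := ⟨0, ⟨_, Par.adm_base⟩⟩
  obtain ⟨C, _, _, om, hom⟩ := exists_shat B 8
  obtain ⟨q, b, N, _, F, a1, a2, a3⟩ := exists_sw2 (B × C) (2 * r0 + 2) r0 r r0 26
    (2 * (5 * r0 + 40) + 1) r0 h (by omega) (by omega) (by omega) (by omega)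
  have := Fintype.ofFinite (B × C)
  obtain ⟨o, ho⟩ := F.exists_dfs
  obtain ⟨ct, cti⟩ := exists_injective_nat (Kl (B × C) r r0)
  obtain ⟨cw, cwi⟩ := exists_injective_nat ((B × C) × Bool)
  obtain ⟨cb, cbi⟩ := exists_injective_nat (Pu (B × C))
  obtain ⟨M, ⟨nu⟩⟩ := Finite.exists_equiv_fin (B × C)
  have mono : ∀ i i' : B × C, i.1.1 < i'.1.1 → i.1.1 * M + nu i < i'.1.1 * M + nu i' :=
    fun i i' c => by nlinarith [(nu i).2, Nat.mul_le_mul_right M (Nat.succ_le_of_lt c)]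
  let V := fun x => Fw.mk F o ho ct cti cw cwi cb cbi (fun i => i.1.1 * M + nu i)
    (fun i i' c => by
      have d : i.1.1 = i'.1.1 := le_antisymm (not_lt.1 fun d => (mono _ _ d).ne' c)
        (not_lt.1 fun d => (mono _ _ d).ne c)
      exact nu.injective (Fin.ext (by simpa [d] using c)))
    (fun i => i.1.1) mono (fun i => i.1.2.1) (fun i => i.1.2.2) (fun j => om j.2)
    (fun l φ c => let ⟨w, d⟩ := hom l φ c
      ⟨om w, d, fun g π c => ⟨((g, ⟨π, c⟩), w), rfl, rfl, rfl⟩⟩)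
    (by omega) ev h (by omega) hr le_rfl a1 a2 x
  obtain ⟨x, hx⟩ := a3 (V fun _ _ _ => ⟨0, by omega⟩).S.toSch rfl
  exact ⟨B × C, N, inferInstance, inferInstance, inferInstance, ‹_›, q, _, b, V x, hx⟩

end Pool.Agent.P.MP_439f1f_co
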