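import Pool.Agent.P.MP_439f1f_co.Fin1
import Pool.Agent.P.MP_439f1f_co.Rk2
import Pool.Agent.P.MP_439f1f_co_X.Ex1

/-!
A moat is a cycle of length `2 r0 + 2`; colours; number of edges; the final assembly.
-/

set_option autoImplicit false

namespace Pool.Agent.P.MP_439f1f_co

open SimpleGraph Sum Function

theorem girth_le_of_emb {U V : Type} [Fintype U] [Nonempty U] {G : SimpleGraph V} (f : U → V)
    (hf : Injective f) (h : ∀ v, ∃ a b, a ≠ b ∧ G.Adj (f v) (f a) ∧ G.Adj (f v) (f b)) :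
    ¬G.IsAcyclic ∧ G.girth ≤ Fintype.card U := by
  classical
  obtain ⟨a, w, hw, -⟩ := exists_girth_eq_length.2 (not_acyclic (G := G.comap f) h)
  have h1 : (w.map (Hom.comap f G)).IsCycle := hw.map hf
  have h2 := girth_le_length h1
  have h3 := hw.isPath_tail.length_lt
  have h4 := w.length_tail_add_one hw.not_nil
  rw [Walk.length_map] at h2
  exact ⟨fun c => c _ h1, by omega⟩

theorem HL_col {S Λ : Type} (m : ℕ) (hang : Λ → ℕ → S → Prop) : (HL m hang).Colorable 3 := by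
  refine ⟨Coloring.mk (Sum.elim (fun _ => 2) fun p => if (p.2 : ℕ) % 2 = 0 then 0 else 1) ?_⟩
  rintro (s | p) (t | q) h
  · exact h.elim
  · simp only [elim_inl, elim_inr]
    split_ifs <;> decide
  · simp only [elim_inl, elim_inr]
    split_ifs <;> decide
  · have := ((HL_rr _ _).1 h).2
    simp only [elim_inr]
    split_ifs <;> first | decide | omega

theorem HL_edges {S Λ J : Type} [Fintype Λ] [Fintype J] {m : ℕ} {hang : Λ → ℕ → S → Prop}
    (ps : Λ → J → ℕ) (hb : Λ → J → S) (h : ∀ L i s, hang L i s → ∃ j, ps L j = i ∧ hb L j = s) :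
    (HL m hang).edgeSet.ncard ≤ Fintype.card Λ * (m + Fintype.card J) := by
  let f : Λ × (Fin m ⊕ J) → Sym2 (S ⊕ Λ × Fin (m + 1)) := fun z =>
    Sum.elim (fun i => s(inr (z.1, i.castSucc), inr (z.1, i.succ)))
      (fun j => s(inl (hb z.1 j), inr (z.1, Fin.ofNat (m + 1) (ps z.1 j)))) z.2
  have k1 : ∀ s (p : Λ × Fin (m + 1)), hang p.1 p.2 s → s(inl s, inr p) ∈ Set.range f := by
    rintro s ⟨L, i⟩ a
    obtain ⟨j, a1, rfl⟩ := h _ _ _ a
    refine ⟨(L, inr j), ?_⟩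
    have : Fin.ofNat (m + 1) (ps L j) = i := Fin.ext (by
      rw [Fin.val_ofNat, a1]; exact Nat.mod_eq_of_lt i.2)
    simp only [f, elim_inr, this]
  have k2 : ∀ (L : Λ) (i j : Fin (m + 1)), (i : ℕ) + 1 = j →
      s(inr (L, i), inr (L, j)) ∈ Set.range f := by
    intro L i j a
    have := j.2
    refine ⟨(L, inl ⟨i, by omega⟩), ?_⟩
    have e1 : (⟨i, by omega⟩ : Fin m).castSucc = i := Fin.ext rfl
    have e2 : (⟨i, by omega⟩ : Fin m).succ = j := Fin.ext a
    simp only [f, elim_inl, e1, e2]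
  have sub : (HL m hang).edgeSet ⊆ Set.range f := by
    intro z
    induction z with
    | h u v =>
      intro a
      rcases u with s | ⟨L, i⟩ <;> rcases v with t | ⟨L', j⟩
      · exact a.elim
      · exact k1 _ _ a
      · exact Sym2.eq_swap ▸ k1 _ _ a
      · obtain ⟨e, c⟩ := (HL_rr (hang := hang) _ _).1 a
        obtain rfl : L = L' := e
        exact c.elim (k2 L i j) fun c => Sym2.eq_swap ▸ k2 L j i c
  refine (Set.ncard_le_ncard sub (Set.finite_range f)).trans ?_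
  rw [← Set.image_univ]
  refine (Set.ncard_image_le Set.finite_univ).trans ?_
  simp [Set.ncard_univ]

theorem to_fin {V : Type} [Fintype V] [DecidableEq V] {M : SimpleGraph V} (h3 : ¬M.IsHamiltonian)
    (hM : ∀ u v, u ≠ v → ¬M.Adj u v → (M ⊔ edge u v).IsHamiltonian) :
    ∃ H : SimpleGraph (Fin (Fintype.card V)), Nonempty (H ≃g M) ∧ ¬H.IsHamiltonian ∧
      ∀ u v, u ≠ v → ¬H.Adj u v → (H ⊔ SimpleGraph.fromEdgeSet {s(u, v)}).IsHamiltonian := by
  let e := Fintype.equivFin V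
  have tr : ∀ X : SimpleGraph V, X.IsHamiltonian ↔ (X.comap e.symm).IsHamiltonian := by
    intro X
    have iso : X.comap e.symm ≃g X := Iso.comap e.symm X
    constructor
    · intro h hc1
      obtain ⟨a, p, hp⟩ := h (by simpa using hc1)
      exact ⟨_, p.map iso.symm.toHom, hp.map iso.symm.bijective⟩
    · intro h hc1
      obtain ⟨a, p, hp⟩ := h (by simpa using hc1)
      exact ⟨_, p.map iso.toHom, hp.map iso.bijective⟩
  refine ⟨M.comap e.symm, ⟨Iso.comap e.symm M⟩, fun h => h3 ((tr M).2 h), fun u v huv hna => ?_⟩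
  have h4 := (tr _).1 (hM (e.symm u) (e.symm v) (by simpa using huv) hna)
  refine h4.mono fun a b hab => ?_
  rcases hab with hab | hab
  · exact Or.inl hab
  · right
    rw [edge_adj] at hab
    simp only [EmbeddingLike.apply_eq_iff_eq, ne_eq] at hab
    rw [fromEdgeSet_adj]
    refine ⟨?_, hab.2⟩
    rcases hab.1 with ⟨rfl, rfl⟩ | ⟨rfl, rfl⟩
    · rfl
    · exact Sym2.eq_swap

section stat

variable {K N Y β : Type} [DecidableEq K] [LinearOrder β] {r r0 q D e b : ℕ}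
  (W : Stat K N Y β r r0 q D e b)

theorem Stat.moat_cycle (n : N) (h : 1 ≤ r0) :
    ¬(HL (2 * r + 9) W.hang).IsAcyclic ∧ (HL (2 * r + 9) W.hang).girth ≤ 2 * r0 + 2 := by
  have ne : ∀ i, finRotate (r0 + 1) i ≠ i := fun i =>
    long_of_cyc (β := finRotate (r0 + 1)) rot_cyc (k := 1) (by simp; omega) i 1 one_pos le_rfl
  have a1 : ∀ i, W.hang (inl (inr (n, i))) 0 (some (inl (inr (n, i)))) := fun i =>
    Or.inl (Or.inl ⟨rfl, Or.inl rfl⟩)
  have a2 : ∀ i, W.hang (inl (inr (n, i))) 0 (some (inl (inr (n, finRotate (r0 + 1) i)))) :=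
    fun i => Or.inl (Or.inl ⟨rfl, Or.inr rfl⟩)
  have := girth_le_of_emb (U := Fin (r0 + 1) ⊕ Fin (r0 + 1)) (G := HL (2 * r + 9) W.hang)
    (Sum.elim (fun i => inl (some (inl (inr (n, i))))) fun i => inr (inl (inr (n, i)), 0))
    (by rintro (i | i) (j | j) c <;> simp at c <;> rw [c]) (by
      rintro (i | i)
      · refine ⟨inr i, inr ((finRotate (r0 + 1)).symm i), fun c => ?_, a1 i, ?_⟩
        · exact ne i (by rw [← Equiv.eq_symm_apply]; exact inr.inj c)
        · have := a2 ((finRotate (r0 + 1)).symm i)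
          rwa [Equiv.apply_symm_apply] at this
      · exact ⟨inl i, inl (finRotate (r0 + 1) i), fun c => ne i (inl.inj c).symm, a1 i, a2 i⟩)
  rw [Fintype.card_sum, Fintype.card_fin] at this
  exact ⟨this.1, by omega⟩

theorem Stat.edges [Fintype (Hub K N Y r0)] : (HL (2 * r + 9) W.hang).edgeSet.ncard ≤
    Fintype.card (Hub K N Y r0) * (4 * r + 27) := by
  have := HL_edges (m := 2 * r + 9) (hang := W.hang) (J := Fin 4 ⊕ Bool × Slot (r + 1))
    (fun L => Sum.elim ![0, 0, 2 * r + 9, 2 * r + 9]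
      fun z => (W.typ L z.1).st r + z.2.off ((W.typ L z.1).len r))
    (fun L => Sum.elim ![some L, W.F.tB0 (finRotate (r0 + 1)) L, some (W.O.dA L),
      W.hB0 (W.O.dA L)] fun z => W.sl L z.1 z.2) (by
      rintro L i s ((⟨rfl, rfl | rfl⟩ | ⟨rfl, rfl | rfl⟩) | ⟨u, σ, -, c1, c2⟩)
      exacts [⟨inl 0, rfl, rfl⟩, ⟨inl 1, rfl, rfl⟩, ⟨inl 2, rfl, rfl⟩, ⟨inl 3, rfl, rfl⟩,
        ⟨inr (u, σ), c1, c2⟩])
  rw [Fintype.card_sum, Fintype.card_prod, Slot.card, Fintype.card_fin, Fintype.card_bool] at this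
  exact this.trans (Nat.mul_le_mul_left _ (by omega))

end stat

/-- **Exact girth.** -/
theorem exact_girth (g : ℕ) (h1 : 26 ≤ g) (h2 : g % 4 = 2) (m : ℕ) :
    ∃ n : ℕ, m ≤ n ∧ ∃ G : SimpleGraph (Fin n), ¬G.IsHamiltonian ∧
      (∀ u v : Fin n, u ≠ v → ¬G.Adj u v →
        (G ⊔ SimpleGraph.fromEdgeSet {s(u, v)}).IsHamiltonian) ∧
      ¬G.IsAcyclic ∧ G.girth = g ∧ G.Colorable 3 ∧ m * G.edgeSet.ncard ≤ (2 * m + 1) * n := by
  obtain ⟨r0, rfl⟩ : ∃ r0, g = 2 * r0 + 2 := ⟨g / 2 - 1, by omega⟩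
  obtain ⟨r, hr⟩ : ∃ r, r = r0 + 3 * m := ⟨_, rfl⟩
  obtain ⟨K, N, _, _, _, _, q, D, b, V, G⟩ := exists_fw2 r r0 (by omega) (by omega) (by omega)
  have := Fintype.ofFinite (Hub K N (Pt K N) r0)
  have := Classical.decEq (Hub K N (Pt K N) r0)
  have G' : V.W.S.Good r0 := ⟨fun a w hw => le_trans (by omega) (G.girth a w hw), G.cover⟩
  have ta : V.TabA := fun s y _ _ _ a b => V.sv_tab s y a b
  have tb : V.TabB := fun s y _ _ a _ _ _ _ _ b c d e f g => V.sv_gen s y a b c d e f g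
  obtain ⟨H, ⟨iso⟩, a1, a2⟩ := to_fin V.safe fun u v ne na =>
    Fw.serve_of G' V.gO V.gN (V.gP G') (V.gS G') V.gX V.gC
      (Fw.gB_ls G' (Fw.rowLS_of ta tb) (Fw.ls2_of ta)) u v ne na
  have hq := V.hq
  obtain ⟨c1, c2⟩ := V.W.S.moat_cycle (V.F.anc (⟨(.tE (Classical.arbitrary _, false) 0 0, .H),
    trivial⟩, ⟨0, by omega⟩, ⟨0, by omega⟩) 0) (by omega)
  have c3 := V.W.S.edges
  have c4 : H.edgeSet.ncard = (HL (2 * r + 9) V.W.S.hang).edgeSet.ncard := by
    rw [← Nat.card_coe_set_eq, ← Nat.card_coe_set_eq]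
    exact Nat.card_congr iso.mapEdgeSet
  have : Nonempty (Hub K N (Pt K N) r0) := ⟨inr (Classical.arbitrary _, none, 0)⟩
  have c5 := Fintype.card_pos (α := Hub K N (Pt K N) r0)
  refine ⟨_, ?_, H, a1, a2, fun c => c1 (iso.isAcyclic_iff.1 c), ?_,
    (HL_col _ _).of_hom iso.toHom, ?_⟩
  · simp only [Fintype.card_sum, Fintype.card_prod, Fintype.card_fin]
    nlinarith
  · rw [iso.girth_eq]
    exact le_antisymm c2 (G.girth.le_girth c1)
  · rw [c4]
    simp only [Fintype.card_sum, Fintype.card_prod, Fintype.card_fin, Fintype.card_option]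
    generalize Fintype.card (Hub K N (Pt K N) r0) = T at c3 ⊢
    refine (Nat.mul_le_mul_left m c3).trans ?_
    subst hr
    nlinarith [Nat.zero_le (T * m), Nat.zero_le (T * r0), Nat.zero_le T]

end Pool.Agent.P.MP_439f1f_co
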